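import Pool.Agent.H384R3.SPk.Defs3
import Pool.Agent.H384R3.SPk.TaskC

set_option autoImplicit false

/-! Task I of project SPK384: counting for sums of dilates of different sets. -/

namespace Pool.Agent.H224R3.SPk

open Finset MeasureTheory Pool.Agent.H384R3.SPk Pool.Agent.H384R3.SPk.C
open scoped ENNReal

lemma F_eq (f : ℤ →₀ ℝ) (A : Finset ℤ) (hA : f.support ⊆ A) (x : ℝ) :
    F f x = ∑ n ∈ A, (f n : ℂ) * e n x := by
  unfold F
  rw [Finsupp.sum_of_support_subset f hA]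
  · rfl
  · intro n _
    simp

lemma e_mul (n l : ℤ) (x : ℝ) : e n ((l : ℝ) * x) = e (l * n) x := by
  unfold e
  congr 1
  push_cast
  ring

lemma F_cont (f : ℤ →₀ ℝ) : Continuous (F f) := by
  have h : F f = fun x => ∑ n ∈ f.support, (f n : ℂ) * e n x := by
    funext x
    exact F_eq f _ (Finset.Subset.refl _) x
  rw [h]
  exact continuous_finsetSum _ fun t _ => (e_cont _).const_mul _

lemma F_periodic (f : ℤ →₀ ℝ) : Function.Periodic (F f) 1 := by
  intro x
  rw [F_eq f _ (Finset.Subset.refl _), F_eq f _ (Finset.Subset.refl _)]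
  refine Finset.sum_congr rfl fun n _ => ?_
  congr 1
  unfold e
  have := Complex.exp_int_mul_two_pi_mul_I n
  rw [show (2 * Real.pi * Complex.I * n * ((x + 1 : ℝ)) : ℂ) =
    2 * Real.pi * Complex.I * n * x + n * (2 * Real.pi * Complex.I) by push_cast; ring,
    Complex.exp_add, this, mul_one]

lemma M_dil (k : ℕ) (f : ℤ →₀ ℝ) (l : ℤ) (hl : l ≠ 0) :
    ∫ x in (0:ℝ)..1, ‖F f ((l : ℝ) * x)‖ ^ (2 * k) = M k f := by
  have hl' : (l : ℝ) ≠ 0 := by exact_mod_cast hl
  have hc : Continuous (fun x => ‖F f x‖ ^ (2 * k)) := ((F_cont f).norm).pow _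
  have hp : Function.Periodic (fun x => ‖F f x‖ ^ (2 * k)) 1 := by
    intro x
    show ‖F f (x + 1)‖ ^ (2 * k) = ‖F f x‖ ^ (2 * k)
    rw [F_periodic f x]
  have h1 := intervalIntegral.integral_comp_mul_left (a := 0) (b := 1)
    (fun x => ‖F f x‖ ^ (2 * k)) hl'
  rw [h1]
  have h2 := hp.intervalIntegral_add_zsmul_eq l 0 (fun t₁ t₂ => hc.intervalIntegrable t₁ t₂)
  simp only [zero_add, zsmul_eq_mul, mul_one] at h2
  rw [mul_zero, mul_one, h2, smul_eq_mul, ← mul_assoc, inv_mul_cancel₀ hl', one_mul]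
  rfl

lemma holder (k : ℕ) (hk : 1 ≤ k) (g : Fin k → ℝ → ℝ) (hg : ∀ i, Continuous (g i))
    (hg0 : ∀ i x, 0 ≤ g i x) :
    ∫ x in (0:ℝ)..1, ∏ i, g i x ^ 2 ≤ ∏ i, (∫ x in (0:ℝ)..1, g i x ^ (2 * k)) ^ ((1:ℝ) / k) := by
  have hk' : (0 : ℝ) < k := by exact_mod_cast hk
  have hci : ∀ i, Continuous (fun x => g i x ^ (2 * k)) := fun i => (hg i).pow _
  have hcp : Continuous (fun x => ∏ i, g i x ^ 2) := continuous_finsetProd _ fun i _ => (hg i).pow _
  have hint : ∀ h : ℝ → ℝ, Continuous h → Integrable h (volume.restrict (Set.Ioc 0 1)) :=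
    fun h hh => (hh.intervalIntegrable 0 1).1
  rw [intervalIntegral.integral_of_le zero_le_one]
  simp only [intervalIntegral.integral_of_le zero_le_one]
  have hM0 : ∀ i, 0 ≤ ∫ x in Set.Ioc (0:ℝ) 1, g i x ^ (2 * k) := fun i =>
    integral_nonneg fun x => pow_nonneg (hg0 i x) _
  have hP0 : 0 ≤ ∏ i, (∫ x in Set.Ioc (0:ℝ) 1, g i x ^ (2 * k)) ^ ((1:ℝ) / k) :=
    Finset.prod_nonneg fun i _ => Real.rpow_nonneg (hM0 i) _
  rw [← ENNReal.ofReal_le_ofReal_iff hP0]
  rw [ofReal_integral_eq_lintegral_ofReal (hint _ hcp)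
    (Filter.Eventually.of_forall fun x => Finset.prod_nonneg fun i _ => by positivity)]
  rw [ENNReal.ofReal_prod_of_nonneg (fun i _ => Real.rpow_nonneg (hM0 i) _)]
  have h3 := ENNReal.lintegral_prod_norm_pow_le (μ := volume.restrict (Set.Ioc (0:ℝ) 1))
    (univ : Finset (Fin k)) (f := fun i x => ENNReal.ofReal (g i x ^ (2 * k)))
    (fun i _ => (hci i).measurable.ennreal_ofReal.aemeasurable) (p := fun _ => (1:ℝ) / k)
    (by rw [Finset.sum_const, Finset.card_univ, Fintype.card_fin, nsmul_eq_mul]; field_simp)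
    (fun i _ => by positivity)
  calc ∫⁻ x in Set.Ioc (0:ℝ) 1, ENNReal.ofReal (∏ i, g i x ^ 2)
      = ∫⁻ x in Set.Ioc (0:ℝ) 1, ∏ i, ENNReal.ofReal (g i x ^ (2 * k)) ^ ((1:ℝ) / k) := by
        refine lintegral_congr fun x => ?_
        rw [ENNReal.ofReal_prod_of_nonneg (fun i _ => by positivity)]
        refine Finset.prod_congr rfl fun i _ => ?_
        rw [ENNReal.ofReal_rpow_of_nonneg (pow_nonneg (hg0 i x) _) (by positivity)]
        congr 1
        rw [pow_mul, ← Real.rpow_natCast (g i x ^ 2) k, ← Real.rpow_mul (by positivity),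
          mul_one_div_cancel hk'.ne', Real.rpow_one]
    _ ≤ _ := h3
    _ = _ := by
        refine Finset.prod_congr rfl fun i _ => ?_
        rw [← ENNReal.ofReal_rpow_of_nonneg (hM0 i) (by positivity),
          ofReal_integral_eq_lintegral_ofReal (hint _ (hci i))
          (Filter.Eventually.of_forall fun x => pow_nonneg (hg0 i x) _)]

theorem taskI : TaskI := by
  classical
  intro k hk l A f hl hA hf
  set T := Fintype.piFinset A with hT
  set r : ℤ → ℝ := fun s => ∑ a ∈ T with ∑ i, l i * a i = s, ∏ i, f i (a i) with hr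
  have hmaps : ∀ a ∈ T, (∑ i, l i * a i) ∈ dilsum l A := by
    intro a ha
    exact mem_image_of_mem _ ha
  have hsum : ∏ i, ∑ n ∈ A i, f i n = ∑ s ∈ dilsum l A, r s := by
    rw [Finset.prod_univ_sum, ← Finset.sum_fiberwise_of_maps_to hmaps]
  have hpow : ∀ x : ℝ, ∏ i, F (f i) ((l i : ℝ) * x) = ∑ s ∈ dilsum l A, (r s : ℂ) * e s x := by
    intro x
    have h1 : ∏ i, F (f i) ((l i : ℝ) * x) =
        ∑ a ∈ T, ∏ i, ((f i (a i) : ℂ) * e (l i * a i) x) := by
      have h2 := Finset.prod_univ_sum A (fun i n => (f i n : ℂ) * e (l i * n) x)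
      rw [← h2]
      refine Finset.prod_congr rfl fun i _ => ?_
      rw [F_eq (f i) (A i) (hA i)]
      refine Finset.sum_congr rfl fun n _ => ?_
      rw [e_mul]
    rw [h1, ← Finset.sum_fiberwise_of_maps_to hmaps]
    refine sum_congr rfl fun s _ => ?_
    rw [hr]
    push_cast
    rw [sum_mul]
    refine sum_congr rfl fun a ha => ?_
    rw [prod_mul_distrib, ← e_sum, (mem_filter.1 ha).2]
  have hcs : (∑ s ∈ dilsum l A, r s) ^ 2 ≤ ((dilsum l A).card : ℝ) * ∑ s ∈ dilsum l A, r s ^ 2 :=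
    sq_sum_le_card_mul_sum_sq
  rw [hsum]
  refine hcs.trans (mul_le_mul_of_nonneg_left ?_ (Nat.cast_nonneg _))
  rw [← parseval]
  have h4 : ∀ x : ℝ, ‖∑ s ∈ dilsum l A, (r s : ℂ) * e s x‖ ^ 2 =
      ∏ i, ‖F (f i) ((l i : ℝ) * x)‖ ^ 2 := by
    intro x
    rw [← hpow, norm_prod, Finset.prod_pow]
  simp_rw [h4]
  refine (holder k hk (fun i x => ‖F (f i) ((l i : ℝ) * x)‖)
    (fun i => ((F_cont (f i)).comp (continuous_const.mul continuous_id)).norm)
    (fun i x => norm_nonneg _)).trans (le_of_eq ?_)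
  refine Finset.prod_congr rfl fun i _ => ?_
  rw [M_dil k (f i) (l i) (hl i)]
  rfl

end Pool.Agent.H224R3.SPk
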